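import Mathlib

/-!
# Infinite families of integer triangles whose base divides the height

The triangle with base `A + C` and other sides `A (B ^ 2 + C ^ 2)` and `C (A ^ 2 + B ^ 2)`, where
`B ^ 2 = A C + 1`, has the height `2 A B C`. So `k = 2 A B C / (A + C)` is a height/base ratio
if it is an integer. For `A, B, C = n + 1, n, n - 1` this gives `k = n ^ 2 - 1`, and for
`A = m C` it gives `k = 2 m B C / (m + 1)`, for each solution of Pell's equation
`B ^ 2 = m C ^ 2 + 1`, if `m + 1` divides `24`.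
-/

set_option autoImplicit false

open scoped EuclideanGeometry

namespace Pool.Agent.Results.MP_49cb33_nt.PellFamilies

/-- `k` is a height/base ratio: there is a triangle `P Q R` in the Euclidean plane with integer
side lengths, `b` for the base `P Q`, such that the foot `F` of the altitude from `R`
to the line `P Q` has distance `k b` from `R`. (The triangle is not degenerate, as `k b > 0`.) -/
def IsRatio (k : ℕ) : Prop :=
  0 < k ∧ ∃ (P Q R F : EuclideanSpace ℝ (Fin 2)) (a b c : ℕ), 0 < b ∧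
    dist P Q = b ∧ dist Q R = a ∧ dist P R = c ∧
    F ∈ line[ℝ, P, Q] ∧ inner ℝ (R - F) (Q - P) = 0 ∧ dist R F = k * b

lemma main {A B C k : ℕ} (hC : 0 < C) (hA : C < A) (h : B ^ 2 = A * C + 1)
    (hk : k * (A + C) = 2 * A * B * C) : IsRatio k := by
  have hB : 0 < B := by
    rcases Nat.eq_zero_or_pos B with h0 | h0
    · rw [h0] at h; simp at h
    · exact h0
  have hA0 : 0 < A := by omega
  have hk0 : 0 < k := by
    rcases Nat.eq_zero_or_pos k with h0 | h0
    · rw [h0, zero_mul] at hk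
      have : 0 < 2 * A * B * C := by positivity
      omega
    · exact h0
  have h' : (B : ℝ) ^ 2 = A * C + 1 := by exact_mod_cast h
  have hk' : (k : ℝ) * (A + C) = 2 * A * B * C := by exact_mod_cast hk
  refine ⟨hk0, !₂[(0 : ℝ), 0], !₂[(A + C : ℝ), 0],
    !₂[-((C : ℝ) * (A ^ 2 - B ^ 2)), 2 * A * B * C], !₂[-((C : ℝ) * (A ^ 2 - B ^ 2)), 0],
    A * (B ^ 2 + C ^ 2), A + C, C * (A ^ 2 + B ^ 2), by omega, ?_, ?_, ?_, ?_, ?_, ?_⟩
  · rw [EuclideanSpace.dist_eq, Real.sqrt_eq_iff_mul_self_eq (by positivity) (by positivity)]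
    simp [Fin.sum_univ_two, Real.dist_eq]
    ring
  · rw [EuclideanSpace.dist_eq, Real.sqrt_eq_iff_mul_self_eq (by positivity) (by positivity)]
    simp only [Fin.sum_univ_two, Real.dist_eq, sq_abs]
    simp
    have h1 : (A : ℝ) + C + C * (A ^ 2 - B ^ 2) = A * (B ^ 2 - C ^ 2) := by
      linear_combination (-(A : ℝ) - C) * h'
    have h2 : ((A : ℝ) + C + C * (A ^ 2 - B ^ 2)) ^ 2 = (A * (B ^ 2 - C ^ 2)) ^ 2 := by rw [h1]
    linear_combination h2
  · rw [EuclideanSpace.dist_eq, Real.sqrt_eq_iff_mul_self_eq (by positivity) (by positivity)]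
    simp only [Fin.sum_univ_two, Real.dist_eq, sq_abs]
    simp
    ring
  · have hAC : ((A : ℝ) + C) ≠ 0 := by positivity
    have h1 : !₂[-((C : ℝ) * (A ^ 2 - B ^ 2)), 0] = AffineMap.lineMap (k := ℝ)
        (!₂[(0 : ℝ), 0] : EuclideanSpace ℝ (Fin 2)) !₂[(A + C : ℝ), 0]
        (-((C : ℝ) * (A ^ 2 - B ^ 2)) / (A + C)) := by
      ext i
      fin_cases i
      · simp [AffineMap.lineMap_apply]
        field_simp
      · simp [AffineMap.lineMap_apply]
    rw [h1]
    exact AffineMap.lineMap_mem_affineSpan_pair _ _ _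
  · simp [EuclideanSpace.inner_eq_star_dotProduct]
  · rw [EuclideanSpace.dist_eq, Real.sqrt_eq_iff_mul_self_eq (by positivity) (by positivity)]
    simp only [Fin.sum_univ_two, Real.dist_eq, sq_abs]
    simp
    rw [hk']
    ring

lemma dvd_of_pell {m B C : ℕ} (hm : m + 1 ∣ 24) (h : B ^ 2 = m * C ^ 2 + 1) :
    m + 1 ∣ 2 * m * B * C := by
  have h1 : m + 1 ≤ 24 := Nat.le_of_dvd (by norm_num) hm
  have key : ∀ m : Fin 24, (m.val + 1) ∣ 24 → ∀ b c : Fin 24,
      (b.val ^ 2) % (m.val + 1) = (m.val * c.val ^ 2 + 1) % (m.val + 1) →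
      (2 * m.val * b.val * c.val) % (m.val + 1) = 0 := by
    decide +kernel
  have h24 : 0 < 24 := by norm_num
  have h2 := key ⟨m, by omega⟩ hm ⟨B % 24, Nat.mod_lt _ h24⟩ ⟨C % 24, Nat.mod_lt _ h24⟩
  simp only at h2
  have hB : B % 24 ≡ B [MOD m + 1] := (Nat.mod_modEq B 24).of_dvd hm
  have hC : C % 24 ≡ C [MOD m + 1] := (Nat.mod_modEq C 24).of_dvd hm
  have e1 : (B % 24) ^ 2 ≡ m * (C % 24) ^ 2 + 1 [MOD m + 1] := by
    refine (hB.pow 2).trans ?_
    rw [h]
    exact (((hC.pow 2).mul_left m).add_right 1).symm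
  have e2 : 2 * m * (B % 24) * (C % 24) ≡ 2 * m * B * C [MOD m + 1] :=
    (hB.mul_left (2 * m)).mul hC
  have e3 := h2 e1
  have e4 : 2 * m * B * C % (m + 1) = 0 := by
    rw [← e2]; exact e3
  exact Nat.dvd_of_mod_eq_zero e4

/-- **Infinite families.** The following numbers are height/base ratios: `n ^ 2 - 1` for
`n ≥ 2`; and `2 m B C / (m + 1)` for all positive solutions of Pell's equation
`B ^ 2 = m C ^ 2 + 1`, where `m + 1` divides `24` and `2 ≤ m`; these are integers. More generally,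
`2 A B C / (A + C)` for all positive integers `A > C` and `B` with `B ^ 2 = A C + 1`, if this is an
integer. -/
theorem result :
    (∀ n : ℕ, 2 ≤ n → IsRatio (n ^ 2 - 1)) ∧
    (∀ m B C : ℕ, 2 ≤ m → m + 1 ∣ 24 → 0 < C → B ^ 2 = m * C ^ 2 + 1 →
      m + 1 ∣ 2 * m * B * C ∧ IsRatio (2 * m * B * C / (m + 1))) ∧
    (∀ A B C k : ℕ, 0 < C → C < A → B ^ 2 = A * C + 1 → k * (A + C) = 2 * A * B * C →
      IsRatio k) := by
  refine ⟨fun n hn => ?_, fun m B C hm hm' hC h => ?_, fun A B C k hC hA h hk => main hC hA h hk⟩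
  · obtain ⟨j, rfl⟩ := Nat.exists_eq_add_of_le hn
    have e : (2 + j) ^ 2 - 1 = (j + 1) * (j + 3) := by
      have : (2 + j) ^ 2 = (j + 1) * (j + 3) + 1 := by ring
      omega
    rw [e]
    exact main (A := j + 3) (B := 2 + j) (C := j + 1) (by omega) (by omega) (by ring) (by ring)
  · have hd := dvd_of_pell hm' h
    refine ⟨hd, ?_⟩
    obtain ⟨k, hk⟩ := hd
    rw [hk, Nat.mul_div_cancel_left _ (by omega)]
    refine main (A := m * C) (B := B) (C := C) hC ?_ (by rw [h]; ring) ?_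
    · nlinarith
    · have : k * (m * C + C) = ((m + 1) * k) * C := by ring
      rw [this, ← hk]
      ring

end Pool.Agent.Results.MP_49cb33_nt.PellFamilies
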